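import Mathlib

set_option autoImplicit false

namespace Pool.Agent.Results.MP_8ac8bf_al.NotUniqueForm

open Module

universe u

/-- `A` is diagonalizable: the eigenspaces of `A` span `V`. -/
def IsDiagonalizable {K V : Type u} [Field K] [AddCommGroup V] [Module K V]
    (A : End K V) : Prop :=
  ⨆ μ : K, A.eigenspace μ = ⊤

/-- `B` acts on the eigenspaces of `A` in a (block) tridiagonal way: there is an ordering
`θ 0, …, θ d` (without repetition) of the eigenvalues of `A`, hence an ordering
`V_i = ker (A - θ i)` of the eigenspaces of `A`, such that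
`B V_i ⊆ V_{i-1} + V_i + V_{i+1}` for all `0 ≤ i ≤ d`, where `V_{-1} = V_{d+1} = 0`. -/
def ActsTridiagonally {K V : Type u} [Field K] [AddCommGroup V] [Module K V]
    (A B : End K V) : Prop :=
  ∃ (d : ℕ) (θ : Fin (d + 1) → K), Function.Injective θ ∧
    (∀ μ : K, A.HasEigenvalue μ ↔ ∃ i, θ i = μ) ∧
    ∀ i : Fin (d + 1), (A.eigenspace (θ i)).map B ≤
      ⨆ j : {j : Fin (d + 1) // (j : ℕ) ≤ (i : ℕ) + 1 ∧ (i : ℕ) ≤ (j : ℕ) + 1},
        A.eigenspace (θ j)

/-- The ordered pair `A, B` is a tridiagonal pair on the vector space `V`. -/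
structure IsTridiagonalPair {K V : Type u} [Field K] [AddCommGroup V] [Module K V]
    (A B : End K V) : Prop where
  /-- `V` has finite dimension -/
  finiteDimensional : FiniteDimensional K V
  /-- `V` has positive dimension -/
  nontrivial : Nontrivial V
  /-- `A` is diagonalizable -/
  diag_left : IsDiagonalizable A
  /-- `B` is diagonalizable -/
  diag_right : IsDiagonalizable B
  /-- condition 2 -/
  tri_left : ActsTridiagonally A B
  /-- condition 3 -/
  tri_right : ActsTridiagonally B A
  /-- condition 4: the only subspaces invariant under `A` and `B` are `0` and `V` -/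
  irreducible : ∀ W : Submodule K V, (∀ w ∈ W, A w ∈ W) → (∀ w ∈ W, B w ∈ W) → W = ⊥ ∨ W = ⊤

/-- A symmetric bilinear form `f` that is `(A, B)`-invariant. -/
structure IsSymmInvariant {K V : Type u} [Field K] [AddCommGroup V] [Module K V]
    (A B : End K V) (f : LinearMap.BilinForm K V) : Prop where
  symm : ∀ u v : V, f u v = f v u
  left : ∀ u v : V, f (A u) v = f u (A v)
  right : ∀ u v : V, f (B u) v = f u (B v)

section construction

variable (K L : Type u) [Field K] [Field L] [Algebra K L]

/-- The map `(x, y) ↦ (0, y)` on `L × L`. -/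
def mapA : End K (L × L) where
  toFun p := (0, p.2)
  map_add' p q := by simp
  map_smul' c p := by simp

/-- The map `(x, y) ↦ (α (x + y), (1 - α) (x + y))` on `L × L`. -/
def mapB (α : L) : End K (L × L) where
  toFun p := (α * (p.1 + p.2), (1 - α) * (p.1 + p.2))
  map_add' p q := by
    ext <;> simp <;> ring
  map_smul' c p := by
    ext <;> simp [mul_add, Algebra.mul_smul_comm]

/-- The bilinear form `((x, y), (x', y')) ↦ l ((1 - α) x x' + α y y')`. -/
def form (α : L) (l : Dual K L) : LinearMap.BilinForm K (L × L) :=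
  LinearMap.mk₂ K (fun p q => l ((1 - α) * (p.1 * q.1) + α * (p.2 * q.2)))
    (fun p p' q => by rw [← map_add]; congr 1; simp; ring)
    (fun c p q => by
      rw [← map_smul]; congr 1
      simp only [Prod.smul_fst, Prod.smul_snd, smul_mul_assoc, mul_smul_comm, smul_add])
    (fun p q q' => by rw [← map_add]; congr 1; simp; ring)
    (fun c p q => by
      rw [← map_smul]; congr 1
      simp only [Prod.smul_fst, Prod.smul_snd, mul_smul_comm, smul_add])

variable {K L}

theorem mapA_apply (p : L × L) : mapA K L p = (0, p.2) := rfl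

theorem mapB_apply (α : L) (p : L × L) :
    mapB K L α p = (α * (p.1 + p.2), (1 - α) * (p.1 + p.2)) := rfl

theorem form_apply (α : L) (l : Dual K L) (p q : L × L) :
    form K L α l p q = l ((1 - α) * (p.1 * q.1) + α * (p.2 * q.2)) := rfl

theorem form_symmInvariant (α : L) (l : Dual K L) :
    IsSymmInvariant (mapA K L) (mapB K L α) (form K L α l) where
  symm p q := by
    rw [form_apply, form_apply]; congr 1; ring
  left p q := by
    rw [form_apply, form_apply, mapA_apply, mapA_apply]; congr 1; simp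
  right p q := by
    rw [form_apply, form_apply, mapB_apply, mapB_apply]; congr 1; simp; ring

/-- An idempotent map other than `0` and `1` is diagonalizable, and any map acts tridiagonally
on its eigenspaces. -/
theorem idem_facts {V : Type u} [AddCommGroup V] [Module K V] (P B : End K V)
    (hP : ∀ v, P (P v) = P v) (h0 : ∃ v, v ≠ 0 ∧ P v = 0) (h1 : ∃ v, v ≠ 0 ∧ P v = v) :
    IsDiagonalizable P ∧ ActsTridiagonally P B := by
  have htop : P.eigenspace (0 : K) ⊔ P.eigenspace (1 : K) = ⊤ := by
    rw [eq_top_iff]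
    intro v _
    rw [Submodule.mem_sup]
    refine ⟨v - P v, ?_, P v, ?_, by abel⟩
    · rw [End.mem_eigenspace_iff]; simp [hP]
    · rw [End.mem_eigenspace_iff]; simp [hP]
  refine ⟨?_, 1, ![0, 1], ?_, ?_, ?_⟩
  · rw [IsDiagonalizable, eq_top_iff, ← htop]
    exact sup_le (le_iSup (fun μ : K => P.eigenspace μ) 0) (le_iSup (fun μ : K => P.eigenspace μ) 1)
  · intro i j hij
    fin_cases i <;> fin_cases j <;> simp_all
  · intro μ
    constructor
    · intro hμ
      obtain ⟨v, hv⟩ := hμ.exists_hasEigenvector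
      have h2 : P v = μ • v := hv.apply_eq_smul
      have h3 : (μ * μ - μ) • v = 0 := by
        have := hP v
        rw [h2, map_smul, h2] at this
        rw [sub_smul, mul_smul, this, sub_self]
      rcases smul_eq_zero.1 h3 with h4 | h4
      · have h5 : μ * (μ - 1) = 0 := by rw [mul_sub, mul_one]; exact h4
        rcases mul_eq_zero.1 h5 with h6 | h6
        · exact ⟨0, by simp [h6]⟩
        · exact ⟨1, by simp [sub_eq_zero.1 h6]⟩
      · exact absurd h4 hv.2
    · rintro ⟨i, rfl⟩
      fin_cases i
      · obtain ⟨v, hv, hv'⟩ := h0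
        refine End.hasEigenvalue_of_hasEigenvector (x := v) ⟨?_, hv⟩
        rw [End.mem_eigenspace_iff]; simp [hv']
      · obtain ⟨v, hv, hv'⟩ := h1
        refine End.hasEigenvalue_of_hasEigenvector (x := v) ⟨?_, hv⟩
        rw [End.mem_eigenspace_iff]; simp [hv']
  · intro i
    have h2 : (⨆ j : {j : Fin (1 + 1) // (j : ℕ) ≤ (i : ℕ) + 1 ∧ (i : ℕ) ≤ (j : ℕ) + 1},
        P.eigenspace ((![0, 1] : Fin 2 → K) j)) = ⊤ := by
      rw [eq_top_iff, ← htop]
      refine sup_le ?_ ?_
      · exact le_iSup (fun j : {j : Fin (1 + 1) // (j : ℕ) ≤ (i : ℕ) + 1 ∧ (i : ℕ) ≤ (j : ℕ) + 1} =>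
          P.eigenspace ((![0, 1] : Fin 2 → K) j)) ⟨0, by constructor <;> fin_cases i <;> simp⟩
      · exact le_iSup (fun j : {j : Fin (1 + 1) // (j : ℕ) ≤ (i : ℕ) + 1 ∧ (i : ℕ) ≤ (j : ℕ) + 1} =>
          P.eigenspace ((![0, 1] : Fin 2 → K) j)) ⟨1, by constructor <;> fin_cases i <;> simp⟩
    rw [h2]
    exact le_top

theorem irreducible_aux [FiniteDimensional K L] (α : L) (hα : Algebra.adjoin K {α} = ⊤)
    (h0 : α ≠ 0) (h1 : 1 - α ≠ 0)
    (W : Submodule K (L × L)) (hA : ∀ w ∈ W, mapA K L w ∈ W) (hB : ∀ w ∈ W, mapB K L α w ∈ W) :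
    W = ⊥ ∨ W = ⊤ := by
  by_cases hW : W = ⊥
  · exact Or.inl hW
  right
  have hfst : ∀ w ∈ W, (w.1, (0 : L)) ∈ W := by
    intro w hw
    have := W.sub_mem hw (hA w hw)
    have h2 : w - mapA K L w = (w.1, (0 : L)) := by
      rw [mapA_apply]; ext <;> simp
    rwa [h2] at this
  have hα1 : ∀ x : L, (x, (0 : L)) ∈ W → (α * x, (0 : L)) ∈ W := by
    intro x hx
    simpa [mapB_apply] using hfst _ (hB _ hx)
  -- the set of first coordinates is closed under multiplication by `L`
  have hmul : ∀ r x : L, (x, (0 : L)) ∈ W → (r * x, (0 : L)) ∈ W := by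
    intro r
    have hr : r ∈ Algebra.adjoin K {α} := by rw [hα]; trivial
    induction hr using Algebra.adjoin_induction with
    | mem y hy =>
      intro x hx
      rw [Set.mem_singleton_iff.1 hy]
      exact hα1 x hx
    | algebraMap c =>
      intro x hx
      have := W.smul_mem c hx
      simpa [Algebra.smul_def] using this
    | add y z _ _ hy hz =>
      intro x hx
      have := W.add_mem (hy x hx) (hz x hx)
      simpa [add_mul] using this
    | mul y z _ _ hy hz =>
      intro x hx
      have := hy _ (hz x hx)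
      simpa [mul_assoc] using this
  -- some nonzero `(x, 0)` lies in `W`
  obtain ⟨w, hw, hw0⟩ := (Submodule.ne_bot_iff W).1 hW
  have hx : ∃ x : L, x ≠ 0 ∧ (x, (0 : L)) ∈ W := by
    by_cases hw1 : w.1 = 0
    · have hw2 : w.2 ≠ 0 := fun h => hw0 (Prod.ext hw1 h)
      refine ⟨α * w.2, mul_ne_zero h0 hw2, ?_⟩
      have := hfst _ (hB _ hw)
      simpa [mapB_apply, hw1] using this
    · exact ⟨w.1, hw1, hfst w hw⟩
  obtain ⟨x, hx0, hxW⟩ := hx
  have hall : ∀ y : L, (y, (0 : L)) ∈ W := by
    intro y
    have := hmul (y * x⁻¹) x hxW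
    simpa [mul_assoc, inv_mul_cancel₀ hx0] using this
  have hall2 : ∀ y : L, ((0 : L), y) ∈ W := by
    intro y
    have := hA _ (hB _ (hall ((1 - α)⁻¹ * y)))
    simpa [mapB_apply, mapA_apply, ← mul_assoc, mul_inv_cancel₀ h1] using this
  rw [eq_top_iff]
  rintro ⟨y, z⟩ _
  have := W.add_mem (hall y) (hall2 z)
  simpa using this

theorem isTridiagonalPair [FiniteDimensional K L] (α : L) (hα : Algebra.adjoin K {α} = ⊤)
    (h0 : α ≠ 0) (h1 : 1 - α ≠ 0) : IsTridiagonalPair (mapA K L) (mapB K L α) := by
  have hA := idem_facts (mapA K L) (mapB K L α) (fun v => by simp [mapA_apply])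
    ⟨((1 : L), (0 : L)), by simp [Prod.ext_iff], by simp [mapA_apply, Prod.ext_iff]⟩
    ⟨((0 : L), (1 : L)), by simp [Prod.ext_iff], by simp [mapA_apply]⟩
  have hB := idem_facts (mapB K L α) (mapA K L)
    (fun v => by
      simp only [mapB_apply]
      have h : α * (v.1 + v.2) + (1 - α) * (v.1 + v.2) = v.1 + v.2 := by ring
      rw [h])
    ⟨((1 : L), (-1 : L)), by simp [Prod.ext_iff], by simp [mapB_apply, Prod.ext_iff]⟩
    ⟨(α, 1 - α), by simp [Prod.ext_iff, h0], by simp [mapB_apply]⟩
  exact
    { finiteDimensional := inferInstance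
      nontrivial := inferInstance
      diag_left := hA.1
      diag_right := hB.1
      tri_left := hA.2
      tri_right := hB.2
      irreducible := fun W hWA hWB => irreducible_aux α hα h0 h1 W hWA hWB }

end construction

/-- Over every field `K` that is not algebraically closed there is a tridiagonal pair with two
nonzero symmetric invariant bilinear forms that are not proportional. -/
theorem result (K : Type u) [Field K] (hK : ¬ IsAlgClosed K) :
    ∃ (V : Type u) (_ : AddCommGroup V) (_ : Module K V) (A B : End K V),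
      IsTridiagonalPair A B ∧
      ∃ f g : LinearMap.BilinForm K V,
        IsSymmInvariant A B f ∧ IsSymmInvariant A B g ∧ f ≠ 0 ∧ g ≠ 0 ∧
        ¬ ∃ c : K, g = c • f := by
  -- an irreducible polynomial without a root
  have hroot : ∃ p : Polynomial K, p.Monic ∧ Irreducible p ∧ ∀ x, p.eval x ≠ 0 := by
    by_contra hcon
    push Not at hcon
    exact hK (IsAlgClosed.of_exists_root K hcon)
  obtain ⟨p, hmonic, hirr, hnoroot⟩ := hroot
  have : Fact (Irreducible p) := ⟨hirr⟩
  have : FiniteDimensional K (AdjoinRoot p) := (AdjoinRoot.powerBasis hirr.ne_zero).finite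
  set α : AdjoinRoot p := AdjoinRoot.root p with hαdef
  have hadj : Algebra.adjoin K {α} = ⊤ := AdjoinRoot.adjoinRoot_eq_top
  have hnotK : ∀ x : K, algebraMap K (AdjoinRoot p) x ≠ α := by
    intro x hx
    have h1 : Polynomial.eval₂ (algebraMap K (AdjoinRoot p)) (algebraMap K (AdjoinRoot p) x) p = 0 := by
      rw [hx]
      exact AdjoinRoot.eval₂_root p
    rw [Polynomial.eval₂_at_apply] at h1
    exact hnoroot x ((map_eq_zero (algebraMap K (AdjoinRoot p))).1 h1)
  have h0 : α ≠ 0 := fun h => hnotK 0 (by rw [map_zero, h])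
  have h1 : 1 - α ≠ 0 := fun h => hnotK 1 (by rw [map_one]; exact sub_eq_zero.1 h)
  -- two non-proportional functionals
  have hli : LinearIndependent K ![(1 : AdjoinRoot p), α] := by
    rw [LinearIndependent.pair_iff]
    intro s t hst
    by_cases ht : t = 0
    · subst ht
      simp only [zero_smul, add_zero, smul_eq_zero, one_ne_zero, or_false] at hst
      exact ⟨hst, rfl⟩
    · exfalso
      apply hnotK (-(t⁻¹ * s))
      have h2 : α = t⁻¹ • (t • α) := by rw [smul_smul, inv_mul_cancel₀ ht, one_smul]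
      have h3 : t • α = -(s • (1 : AdjoinRoot p)) := by
        rw [eq_neg_iff_add_eq_zero, add_comm]; exact hst
      rw [h2, h3, Algebra.algebraMap_eq_smul_one, smul_neg, smul_smul, neg_smul]
  obtain ⟨g, hg⟩ := LinearMap.exists_leftInverse_of_injective
    (Finsupp.linearCombination K ![(1 : AdjoinRoot p), α]) (LinearMap.ker_eq_bot.2 hli)
  have hgv : ∀ j : Fin 2, g (![(1 : AdjoinRoot p), α] j) = Finsupp.single j 1 := by
    intro j
    have := LinearMap.congr_fun hg (Finsupp.single j 1)
    simpa using this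
  let l1 : Dual K (AdjoinRoot p) := (Finsupp.lapply (0 : Fin 2)).comp g
  let l2 : Dual K (AdjoinRoot p) := (Finsupp.lapply (1 : Fin 2)).comp g
  have hl11 : l1 1 = 1 := by
    have := hgv 0
    simp only [Matrix.cons_val_zero] at this
    simp [l1, this]
  have hl21 : l2 1 = 0 := by
    have := hgv 0
    simp only [Matrix.cons_val_zero] at this
    simp [l2, this]
  have hl2α : l2 α = 1 := by
    have h : g α = Finsupp.single (1 : Fin 2) 1 := hgv 1
    simp [l2, h]
  have key : ∀ (l : Dual K (AdjoinRoot p)) (x : AdjoinRoot p),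
      form K (AdjoinRoot p) α l ((1 - α)⁻¹ * x, 0) (1, 0) = l x := by
    intro l x
    rw [form_apply]
    congr 1
    simp [← mul_assoc, mul_inv_cancel₀ h1]
  refine ⟨AdjoinRoot p × AdjoinRoot p, inferInstance, inferInstance, mapA K (AdjoinRoot p),
    mapB K (AdjoinRoot p) α, isTridiagonalPair α hadj h0 h1,
    form K (AdjoinRoot p) α l1, form K (AdjoinRoot p) α l2,
    form_symmInvariant α l1, form_symmInvariant α l2, ?_, ?_, ?_⟩
  · intro h
    have h2 := key l1 1
    rw [h, hl11] at h2
    exact zero_ne_one h2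
  · intro h
    have h2 := key l2 α
    rw [h, hl2α] at h2
    exact zero_ne_one h2
  · rintro ⟨c, hc⟩
    have h2 := key l2 1
    have h3 := key l2 α
    rw [hc] at h2 h3
    have h4 : form K (AdjoinRoot p) α l1 ((1 - α)⁻¹ * 1, 0) (1, 0) = l1 1 := key l1 1
    rw [LinearMap.smul_apply, LinearMap.smul_apply, h4, hl11, hl21, smul_eq_mul, mul_one] at h2
    rw [LinearMap.smul_apply, LinearMap.smul_apply, h2, zero_smul, hl2α] at h3
    exact zero_ne_one h3

end Pool.Agent.Results.MP_8ac8bf_al.NotUniqueForm
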